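import Pool.Agent.Lib.MP_b1a3a4_al.MVS.LG.Iface

/-! Project MVS, part IV: module EVB. -/

set_option linter.all false

namespace Pool.Agent.Lib.MP_b1a3a4_al.MVS.LG.H15

theorem norm_lm {G : Type} [Group G] (g : G) (ξ : L2 G) : ‖lm g ξ‖ = ‖ξ‖ := norm_tr _ _

section

variable {n : ℕ} {L : Fin n → Type} [∀ j, Group (L j)]

theorem mder_one {w : (∀ j, L j) → L2 (∀ j, L j)} (hw : MDer w) (j : Fin n) (y : ∀ j, L j) :
    w (Function.update y j 1) = 0 := by
  have h := hw j y 1 1
  rw [mul_one, Pi.mulSingle_one, lm_one] at h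
  exact left_eq_add.1 h

theorem mder_inv {w : (∀ j, L j) → L2 (∀ j, L j)} (hw : MDer w) (j : Fin n) (y : ∀ j, L j)
    (g : L j) : ‖w (Function.update y j g⁻¹)‖ = ‖w (Function.update y j g)‖ := by
  have h := hw j y g⁻¹ g
  rw [inv_mul_cancel, mder_one hw] at h
  have h2 : w (Function.update y j g⁻¹) =
      -(lm (Pi.mulSingle j g⁻¹) (w (Function.update y j g))) := eq_neg_of_add_eq_zero_left h.symm
  rw [h2, norm_neg, norm_lm]

theorem evb : EvbStatement := by
  classical
  intro n L _ r x hx
  suffices H : ∀ J : Finset (Fin n), ∀ y : ∀ j, L j, (∀ j, j ∉ J → y j ∈ Set.range (x j)) →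
      ∃ C : ℝ, 0 ≤ C ∧ ∀ w : (∀ j, L j) → L2 (∀ j, L j), MDer w →
      ‖w y‖ ≤ C * ∑ i : (∀ j, Fin (r j)), ‖w (fun j => x j (i j))‖ by
    intro y
    exact H Finset.univ y (fun j hj => absurd (Finset.mem_univ j) hj)
  intro J
  induction J using Finset.induction_on with
  | empty =>
    intro y hy
    choose i hi using fun j => hy j (Finset.notMem_empty j)
    refine ⟨1, zero_le_one, fun w _ => ?_⟩
    have e : y = fun j => x j (i j) := funext fun j => (hi j).symm
    rw [one_mul, e]
    exact Finset.single_le_sum (f := fun i : (∀ j, Fin (r j)) => ‖w (fun j => x j (i j))‖)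
      (fun i _ => norm_nonneg _) (Finset.mem_univ i)
  | insert j J hj ih =>
    intro y hy
    have key : ∀ g : L j, ∃ C : ℝ, 0 ≤ C ∧ ∀ w : (∀ j, L j) → L2 (∀ j, L j), MDer w →
        ‖w (Function.update y j g)‖ ≤ C * ∑ i : (∀ j, Fin (r j)), ‖w (fun j => x j (i j))‖ := by
      intro g
      have hg : g ∈ Subgroup.closure (Set.range (x j)) := by rw [hx j]; trivial
      induction hg using Subgroup.closure_induction with
      | mem g hg =>
        refine ih _ fun l hl => ?_
        by_cases h : l = j
        · subst h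
          rw [Function.update_self]
          exact hg
        · rw [Function.update_of_ne h]
          exact hy l (by rw [Finset.mem_insert]; tauto)
      | one =>
        refine ⟨0, le_rfl, fun w hw => ?_⟩
        rw [mder_one hw]
        simp
      | mul g h _ _ ihg ihh =>
        obtain ⟨C1, h1, H1⟩ := ihg
        obtain ⟨C2, h2, H2⟩ := ihh
        refine ⟨C1 + C2, add_nonneg h1 h2, fun w hw => ?_⟩
        rw [hw j y g h, add_mul]
        refine (norm_add_le _ _).trans (add_le_add (H1 w hw) ?_)
        rw [norm_lm]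
        exact H2 w hw
      | inv g _ ihg =>
        obtain ⟨C1, h1, H1⟩ := ihg
        refine ⟨C1, h1, fun w hw => ?_⟩
        rw [mder_inv hw]
        exact H1 w hw
    have := key (y j)
    rwa [Function.update_eq_self] at this

end

end Pool.Agent.Lib.MP_b1a3a4_al.MVS.LG.H15
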