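import Pool.Agent.Lib.MP_b1a3a4_al.MVS.LG.Iface

/-! Project MVS, part IV: module REDF. -/

set_option linter.all false

namespace Pool.Agent.Lib.MP_b1a3a4_al.MVS.LG.H15

/-! ### Derivations on a free group with values in operators -/

section crossed

variable {Y G : Type} [Group G] {V : Type} [NormedAddCommGroup V] [NormedSpace ℝ V]

/-- one step. -/
noncomputable def stepE (g : G) (A0 : V →L[ℝ] L2 G) : Equiv.Perm (V →L[ℝ] L2 G) where
  toFun A := A0 + (lm g).comp A
  invFun A := (lm g⁻¹).comp (A - A0)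
  left_inv A := by
    refine ContinuousLinearMap.ext fun v => ?_
    simp [← lm_mul]
  right_inv A := by
    refine ContinuousLinearMap.ext fun v => ?_
    simp [← lm_mul]

/-- the homomorphism to the affine transformations. -/
noncomputable def PhiE (ψ : FreeGroup Y →* G) (c : Y → (V →L[ℝ] L2 G)) :
    FreeGroup Y →* Equiv.Perm (V →L[ℝ] L2 G) :=
  FreeGroup.lift (fun y => stepE (ψ (FreeGroup.of y)) (c y))

/-- the derivation. -/
noncomputable def DE (ψ : FreeGroup Y →* G) (c : Y → (V →L[ℝ] L2 G)) (g : FreeGroup Y) :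
    V →L[ℝ] L2 G := PhiE ψ c g 0

theorem PhiE_eq (ψ : FreeGroup Y →* G) (c : Y → (V →L[ℝ] L2 G)) (g : FreeGroup Y) :
    ∀ A, PhiE ψ c g A = DE ψ c g + (lm (ψ g)).comp A := by
  have hof : ∀ y A, PhiE ψ c (FreeGroup.of y) A = c y + (lm (ψ (FreeGroup.of y))).comp A := by
    intro y A
    simp [PhiE, stepE]
  have hinv : ∀ y A, PhiE ψ c (FreeGroup.of y)⁻¹ A =
      (lm (ψ (FreeGroup.of y))⁻¹).comp (A - c y) := by
    intro y A
    simp only [PhiE, map_inv, FreeGroup.lift_apply_of]
    rfl
  refine FreeGroup.induction_on g ?_ ?_ ?_ ?_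
  · intro A
    refine ContinuousLinearMap.ext fun v => ?_
    simp [DE, map_one]
  · intro y A
    show PhiE ψ c (FreeGroup.of y) A = DE ψ c (FreeGroup.of y) + _
    unfold DE
    rw [hof, hof]
    refine ContinuousLinearMap.ext fun v => ?_
    simp
  · intro y _ A
    show PhiE ψ c (FreeGroup.of y)⁻¹ A = DE ψ c (FreeGroup.of y)⁻¹ + (lm (ψ (FreeGroup.of y)⁻¹)).comp A
    unfold DE
    rw [hinv, hinv, map_inv]
    refine ContinuousLinearMap.ext fun v => ?_
    simp
    abel
  · intro g h hg hh A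
    unfold DE
    rw [map_mul, Equiv.Perm.mul_apply, Equiv.Perm.mul_apply, hg (PhiE ψ c h A), hg (PhiE ψ c h 0),
      hh A]
    unfold DE
    refine ContinuousLinearMap.ext fun v => ?_
    simp [lm_mul]
    abel

theorem DE_of (ψ : FreeGroup Y →* G) (c : Y → (V →L[ℝ] L2 G)) (y : Y) :
    DE ψ c (FreeGroup.of y) = c y := by
  refine ContinuousLinearMap.ext fun v => ?_
  simp [DE, PhiE, stepE]

theorem DE_mul (ψ : FreeGroup Y →* G) (c : Y → (V →L[ℝ] L2 G)) (g h : FreeGroup Y) :
    DE ψ c (g * h) = DE ψ c g + (lm (ψ g)).comp (DE ψ c h) := by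
  have := PhiE_eq ψ c g (DE ψ c h)
  rw [← this]
  unfold DE
  rw [map_mul, Equiv.Perm.mul_apply]

end crossed

/-- derivations along a homomorphism vanish if they vanish on the generators. -/
theorem derA_zero {Y G : Type} [Group G] (ψ : FreeGroup Y →* G) (δ : FreeGroup Y → L2 G)
    (hδ : ∀ g h, δ (g * h) = δ g + lm (ψ g) (δ h)) (h0 : ∀ y, δ (FreeGroup.of y) = 0)
    (g : FreeGroup Y) : δ g = 0 := by
  have h1 : δ 1 = 0 := by
    have := hδ 1 1
    rw [mul_one, map_one, lm_one] at this
    exact left_eq_add.1 this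
  have hi : ∀ g, δ g = 0 → δ g⁻¹ = 0 := by
    intro g hg
    have := hδ g⁻¹ g
    rw [inv_mul_cancel, h1, hg, map_zero, add_zero] at this
    exact this.symm
  refine FreeGroup.induction_on g h1 (fun y => h0 y) (fun y _ => hi _ (h0 y)) ?_
  intro g h hg hh
  rw [hδ, hg, hh, map_zero, add_zero]

theorem comm_of_subsingleton {Y : Type} (hY : ∀ y y' : Y, y = y') (g h : FreeGroup Y) :
    Commute g h := by
  have s1 : ∀ (y : Y) (g : FreeGroup Y), Commute (FreeGroup.of y) g := by
    intro y g
    refine FreeGroup.induction_on g (Commute.one_right _) (fun y' => ?_) (fun y' h => ?_)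
      (fun a b ha hb => ha.mul_right hb)
    · rw [hY y' y]
    · exact h.inv_right
  refine FreeGroup.induction_on g (Commute.one_left _) (fun y => s1 y h)
    (fun y h => h.inv_left) (fun a b ha hb => ha.mul_left hb)

/-! ### components -/

section comp

variable {X G : Type} [Group G]

theorem co_tr (i : X) (t : G) (u : L2 (X × G)) :
    co i (tr (rmX X G t) u) = tr (rmP G t) (co i u) := by
  ext g
  rfl

theorem ext_co {u u' : L2 (X × G)} (h : ∀ i, co i u = co i u') : u = u' := by
  ext ⟨i, g⟩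
  have := congrArg (fun ξ : L2 G => ξ g) (h i)
  exact this

open Classical in
/-- inclusion of a component. -/
noncomputable def inc (i : X) : L2 G →L[ℝ] L2 (X × G) := ContinuousLinearMap.adjoint (co i)

theorem co_inc_self (i : X) (ξ : L2 G) : co i (inc i ξ) = ξ := by
  ext g
  rw [co_apply, ← inner_bv, inc, ContinuousLinearMap.adjoint_inner_right]
  have : co i (bv ((i, g) : X × G)) = bv g := by
    ext h
    rw [co_apply]
    by_cases hh : h = g
    · subst hh; rw [bv_self, bv_self]
    · rw [bv_ne hh, bv_ne]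
      intro h2
      exact hh (Prod.ext_iff.1 h2).2
  rw [this, inner_bv]

theorem co_inc_ne {i i' : X} (hi : i' ≠ i) (ξ : L2 G) : co i' (inc i ξ) = 0 := by
  ext g
  rw [co_apply, ← inner_bv, inc, ContinuousLinearMap.adjoint_inner_right]
  have : co i (bv ((i', g) : X × G)) = 0 := by
    ext h
    rw [co_apply, bv_ne]
    · rfl
    · intro h2
      exact hi (Prod.ext_iff.1 h2).1.symm
  rw [this, inner_zero_left]
  rfl

end comp

theorem redf (hDim : DimStatement) (hProj : ProjStatement) : RedfStatement := by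
  classical
  intro F _ _ hNA r φ hφ P hP hPeq hPu
  -- the basis
  set Y := IsFreeGroup.Generators F with hYdef
  set e : F ≃* FreeGroup Y := IsFreeGroup.toFreeGroup F with he
  obtain ⟨y1, y2, hy12⟩ : ∃ y1 y2 : Y, y1 ≠ y2 := by
    by_contra hcon
    push Not at hcon
    obtain ⟨a, b, hab⟩ := hNA
    apply hab
    apply e.injective
    rw [map_mul, map_mul]
    exact comm_of_subsingleton hcon _ _
  -- derivations of F
  set D : F → (L2 (Y × F) →L[ℝ] L2 F) := fun g => DE e.symm.toMonoidHom (fun y => co y) (e g)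
    with hD
  have hDmul : ∀ g h, D (g * h) = D g + (lm g).comp (D h) := by
    intro g h
    simp only [hD]
    rw [map_mul, DE_mul]
    simp
  have hDof : ∀ y, D (e.symm (FreeGroup.of y)) = co y := by
    intro y
    simp only [hD]
    rw [MulEquiv.apply_symm_apply, DE_of]
  have hDer : ∀ v, Der (fun g => D g v) := by
    intro v g h
    simp only [hDmul]
    rfl
  -- induction on F
  have indF : ∀ (Q : F → Prop), Q 1 → (∀ y, Q (e.symm (FreeGroup.of y))) →
      (∀ g, Q g → Q g⁻¹) → (∀ g h, Q g → Q h → Q (g * h)) → ∀ g, Q g := by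
    intro Q q1 qof qinv qmul g
    have : Q (e.symm (e g)) := by
      refine FreeGroup.induction_on (C := fun x => Q (e.symm x)) (e g) ?_ ?_ ?_ ?_
      · show Q (e.symm 1); rw [map_one]; exact q1
      · intro y; exact qof y
      · intro y h; show Q (e.symm (FreeGroup.of y)⁻¹); rw [map_inv]; exact qinv _ (qof y)
      · intro a b ha hb; show Q (e.symm (a * b)); rw [map_mul]; exact qmul _ _ ha hb
    rwa [MulEquiv.symm_apply_apply] at this
  have hD1 : ∀ v, D 1 v = 0 := by
    intro v
    have := hDer v 1 1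
    simp only [mul_one, lm_one] at this
    exact left_eq_add.1 this
  have hDinv : ∀ g v, D g⁻¹ v = - lm g⁻¹ (D g v) := by
    intro g v
    have := hDer v g⁻¹ g
    simp only [inv_mul_cancel, hD1] at this
    exact eq_neg_of_add_eq_zero_left this.symm
  have lm_rm' : ∀ (g t : F) (ξ : L2 F), lm g (tr (rmP F t) ξ) = tr (rmP F t) (lm g ξ) :=
    fun g t ξ => lm_rm g t ξ
  have hDeq : ∀ g t v, D g (tr (rmX Y F t) v) = tr (rmP F t) (D g v) := by
    intro g t v
    revert g
    refine indF _ ?_ ?_ ?_ ?_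
    · rw [hD1, hD1, map_zero]
    · intro y; rw [hDof, co_tr]
    · intro g hg; rw [hDinv, hDinv, hg, map_neg, lm_rm']
    · intro g h hg hh
      have a1 := hDer (tr (rmX Y F t) v) g h
      have a2 := hDer v g h
      simp only at a1 a2
      rw [a1, a2, hg, hh, map_add, lm_rm']
  -- the operator Ψ
  set x : Fin r → F := fun i => φ (FreeGroup.of i) with hx
  set Ψ : L2 (Y × F) →L[ℝ] L2 (Fin r × F) := ∑ i, (inc i).comp (D (x i)) with hΨ
  have hΨco : ∀ i v, co i (Ψ v) = D (x i) v := by
    intro i v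
    rw [hΨ, ContinuousLinearMap.sum_apply, map_sum, Finset.sum_eq_single i]
    · exact co_inc_self i _
    · intro j _ hj
      exact co_inc_ne (Ne.symm hj) _
    · intro h; exact absurd (Finset.mem_univ i) h
  have hΨeq : Eqv (rmX Y F) (rmX (Fin r) F) Ψ := by
    intro t v
    refine ext_co fun i => ?_
    rw [hΨco, co_tr, hΨco, hDeq]
  have hΨinj : ∀ v, Ψ v = 0 → v = 0 := by
    intro v hv
    have h1 : ∀ w : FreeGroup (Fin r), D (φ w) v = 0 := by
      refine derA_zero φ (fun w => D (φ w) v) ?_ ?_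
      · intro g h
        simp only [map_mul]
        exact hDer v _ _
      · intro i
        have := hΨco i v
        rw [hv, map_zero] at this
        exact this.symm
    have h2 : ∀ g : F, D g v = 0 := by
      intro g
      obtain ⟨w, rfl⟩ := hφ g
      exact h1 w
    refine ext_co fun y => ?_
    rw [← hDof y, h2, hDof, map_zero]
  -- the operator Δ
  set Δ : L2 (Fin r × F) →L[ℝ] L2 F := ∑ i, ((lm (x i)⁻¹).comp (co i) - co i) with hΔ
  have hΔa : ∀ u, Δ u = ∑ i, (lm (x i)⁻¹ (co i u) - co i u) := by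
    intro u
    rw [hΔ, ContinuousLinearMap.sum_apply]
    rfl
  have hΔeq : Eqv (rmX (Fin r) F) (rmP F) Δ := by
    intro t u
    rw [hΔa, hΔa, map_sum]
    refine Finset.sum_congr rfl fun i _ => ?_
    rw [co_tr, lm_rm', map_sub]
  set A := Δ.comp Ψ with hA
  have hAeq : Eqv (rmX Y F) (rmP F) A := by
    intro t v
    show Δ (Ψ (tr (rmX Y F t) v)) = tr (rmP F t) (Δ (Ψ v))
    rw [hΨeq, hΔeq]
  -- the projection to the kernel
  obtain ⟨PW, hPW, hPWm, hPWe⟩ := hProj.1 F (Y × F) (rmX Y F) (LinearMap.ker A.toLinearMap)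
    (ContinuousLinearMap.isClosed_ker A) (by
      intro t ξ hξ
      rw [LinearMap.mem_ker] at hξ ⊢
      show A (tr (rmX Y F t) ξ) = 0
      have : A ξ = 0 := hξ
      rw [hAeq, this, map_zero])
  have hPWk : ∀ ξ, A (PW ξ) = 0 := by
    intro ξ
    have : PW ξ ∈ LinearMap.ker A.toLinearMap := (hPWm _).1 (hPW.idem ξ)
    exact this
  -- free actions and orbits
  have hfree : ∀ (X : Type), FreeAct (rmX X F) := by
    intro X t ω h
    have h2 := (Prod.ext_iff.1 h).2
    have h3 : ω.2 * t⁻¹ = ω.2 := h2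
    have h4 : t⁻¹ = 1 := by simpa using h3
    simpa using h4
  set S : Finset (Y × F) := {(y1, 1), (y2, 1)} with hS
  have hSne : ((y1, 1) : Y × F) ≠ (y2, 1) := fun h => hy12 (Prod.ext_iff.1 h).1
  have hSorb : DiffOrb (rmX Y F) S := by
    intro ω hω ω' hω' t h
    have h1 : ω.1 = ω'.1 := (Prod.ext_iff.1 h).1
    have h2 : ω.2 = 1 := by
      simp only [hS, Finset.mem_insert, Finset.mem_singleton] at hω
      rcases hω with rfl | rfl <;> rfl
    have h3 : ω'.2 = 1 := by
      simp only [hS, Finset.mem_insert, Finset.mem_singleton] at hω'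
      rcases hω' with rfl | rfl <;> rfl
    exact Prod.ext h1 (h2.trans h3.symm)
  -- first application of DIM
  have hid : IsPr (ContinuousLinearMap.id ℝ (L2 F)) := ⟨fun ξ => rfl, fun ξ η => rfl⟩
  have hQ : IsPr (ContinuousLinearMap.id ℝ (L2 (Y × F)) - PW) := by
    refine ⟨fun ξ => ?_, fun ξ η => ?_⟩
    · simp only [ContinuousLinearMap.sub_apply, ContinuousLinearMap.id_apply, map_sub, hPW.idem]
      simp
    · simp only [ContinuousLinearMap.sub_apply, ContinuousLinearMap.id_apply, inner_sub_left,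
        inner_sub_right, hPW.symm]
  have d1 := hDim F (Y × F) F (rmX Y F) (rmP F) (hfree Y) {1}
    (by
      intro ω'
      refine ⟨ω'⁻¹, 1, Finset.mem_singleton_self _, ?_⟩
      show (1 : F) * (ω'⁻¹)⁻¹ = ω'
      simp)
    A (ContinuousLinearMap.id ℝ (L2 (Y × F)) - PW) (ContinuousLinearMap.id ℝ (L2 F)) hQ hid hAeq
    (by
      intro t ξ
      simp only [ContinuousLinearMap.sub_apply, ContinuousLinearMap.id_apply, map_sub]
      rw [hPWe])
    (by intro t ξ; rfl) (by intro ξ; rfl)
    (by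
      intro ξ h
      have h1 : (ContinuousLinearMap.id ℝ (L2 (Y × F)) - PW) ξ ∈ LinearMap.ker A.toLinearMap := h
      have h2 := (hPWm _).2 h1
      have h3 : PW ((ContinuousLinearMap.id ℝ (L2 (Y × F)) - PW) ξ) = 0 := by
        simp only [ContinuousLinearMap.sub_apply, ContinuousLinearMap.id_apply, map_sub,
          hPW.idem, sub_self]
      rw [← h2, h3])
    S hSorb
  have hpy : ∀ ω : Y × F, ‖(ContinuousLinearMap.id ℝ (L2 (Y × F)) - PW) (bv ω)‖ ^ 2 =
      1 - ‖PW (bv ω)‖ ^ 2 := by
    intro ω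
    have h1 : inner ℝ (PW (bv ω)) ((ContinuousLinearMap.id ℝ (L2 (Y × F)) - PW) (bv ω)) = 0 := by
      rw [hPW.symm]
      simp only [ContinuousLinearMap.sub_apply, ContinuousLinearMap.id_apply, map_sub, hPW.idem,
        sub_self, inner_zero_right]
    have h2 := norm_add_sq_real (PW (bv ω))
      ((ContinuousLinearMap.id ℝ (L2 (Y × F)) - PW) (bv ω))
    rw [h1] at h2
    have h3 : PW (bv ω) + (ContinuousLinearMap.id ℝ (L2 (Y × F)) - PW) (bv ω) = bv ω := by
      simp
    rw [h3, norm_bv] at h2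
    linarith
  have d1' : (1 : ℝ) ≤ ∑ ω ∈ S, ‖PW (bv ω)‖ ^ 2 := by
    rw [Finset.sum_congr rfl fun ω _ => hpy ω, Finset.sum_singleton] at d1
    rw [Finset.sum_sub_distrib, Finset.sum_const, hS, Finset.card_pair hSne] at d1
    have : ‖(ContinuousLinearMap.id ℝ (L2 F)) (bv (1 : F))‖ ^ 2 = 1 := by
      rw [ContinuousLinearMap.id_apply, norm_bv, one_pow]
    rw [this] at d1
    rw [hS]
    simp only [nsmul_eq_mul, Nat.cast_ofNat, mul_one] at d1
    linarith
  -- second application of DIM
  have d2 := hDim F (Y × F) (Fin r × F) (rmX Y F) (rmX (Fin r) F) (hfree Y)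
    (Finset.univ.image fun i : Fin r => ((i, 1) : Fin r × F))
    (by
      intro ω'
      refine ⟨ω'.2⁻¹, (ω'.1, 1), Finset.mem_image_of_mem _ (Finset.mem_univ _), ?_⟩
      show (ω'.1, (1 : F) * (ω'.2⁻¹)⁻¹) = ω'
      simp)
    Ψ PW P hPW hP hΨeq hPWe hPeq
    (by
      intro ξ
      refine hPu (fun g => D g (PW ξ)) (Ψ (PW ξ)) (hDer _) (fun i => (hΨco i _).symm) ?_
      have := hPWk ξ
      rw [← hΔa]
      exact this)
    (fun ξ h => hΨinj _ h) S hSorb
  rw [Finset.sum_image (fun i _ j _ h => (Prod.ext_iff.1 h).1)] at d2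
  exact d1'.trans d2

end Pool.Agent.Lib.MP_b1a3a4_al.MVS.LG.H15
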