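import Pool.Agent.Lib.MP_b1a3a4_al.MVS.LG.Iface

/-! Project MVS, part IV: module TENS. -/

set_option linter.all false

namespace Pool.Agent.Lib.MP_b1a3a4_al.MVS.LG.H15

section

variable {n : ℕ} {L : Fin n → Type} [∀ j, Group (L j)]

theorem tens_sum (ξ : ∀ j, L2 (L j)) (s : Finset (∀ j, L j)) :
    ∑ g ∈ s, (∏ j, ξ j (g j)) ^ 2 ≤ ∏ j, ‖ξ j‖ ^ 2 := by
  classical
  have h1 : s ⊆ Fintype.piFinset (fun j => s.image (fun g => g j)) := by
    intro g hg
    rw [Fintype.mem_piFinset]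
    intro j
    exact Finset.mem_image_of_mem _ hg
  calc ∑ g ∈ s, (∏ j, ξ j (g j)) ^ 2 = ∑ g ∈ s, ∏ j, (ξ j (g j)) ^ 2 :=
        Finset.sum_congr rfl fun g _ => by rw [Finset.prod_pow]
    _ ≤ ∑ g ∈ Fintype.piFinset (fun j => s.image (fun g => g j)), ∏ j, (ξ j (g j)) ^ 2 :=
        Finset.sum_le_sum_of_subset_of_nonneg h1 fun g _ _ =>
          Finset.prod_nonneg fun j _ => sq_nonneg _
    _ = ∏ j, ∑ a ∈ s.image (fun g => g j), (ξ j a) ^ 2 :=
        (Finset.prod_univ_sum (fun j => s.image (fun g => g j)) (fun j a => (ξ j a) ^ 2)).symm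
    _ ≤ ∏ j, ‖ξ j‖ ^ 2 := by
        refine Finset.prod_le_prod (fun j _ => Finset.sum_nonneg fun a _ => sq_nonneg _) ?_
        intro j _
        rw [L2.norm_sq]
        exact (ξ j).summable.sum_le_tsum _ fun a _ => sq_nonneg _

theorem tens_mem (ξ : ∀ j, L2 (L j)) : Memℓp (fun g : (∀ j, L j) => ∏ j, ξ j (g j)) 2 := by
  rw [memL2]
  exact summable_of_sum_le (fun g => sq_nonneg _) (tens_sum ξ)

/-- tensor product of vectors. -/
noncomputable def ten (ξ : ∀ j, L2 (L j)) : L2 (∀ j, L j) :=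
  ⟨fun g => ∏ j, ξ j (g j), tens_mem ξ⟩

theorem ten_apply (ξ : ∀ j, L2 (L j)) (g : ∀ j, L j) : ten ξ g = ∏ j, ξ j (g j) := rfl

theorem ten_norm (ξ : ∀ j, L2 (L j)) : ‖ten ξ‖ ^ 2 ≤ ∏ j, ‖ξ j‖ ^ 2 := by
  rw [L2.norm_sq]
  exact Real.tsum_le_of_sum_le (fun g => sq_nonneg _) (tens_sum ξ)

theorem ten_update (ξ : ∀ j, L2 (L j)) (j : Fin n) (η : L2 (L j)) (g : ∀ j, L j) :
    ten (Function.update ξ j η) g = η (g j) * ∏ l ∈ Finset.univ.erase j, ξ l (g l) := by
  rw [ten_apply, ← Finset.mul_prod_erase Finset.univ _ (Finset.mem_univ j), Function.update_self]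
  congr 1
  refine Finset.prod_congr rfl fun l hl => ?_
  rw [Function.update_of_ne (Finset.ne_of_mem_erase hl)]

/-- the tensor product as a function of one variable. -/
noncomputable def tenL (ξ : ∀ j, L2 (L j)) (j : Fin n) : L2 (L j) →L[ℝ] L2 (∀ j, L j) :=
  LinearMap.mkContinuous
    { toFun := fun η => ten (Function.update ξ j η)
      map_add' := fun η η' => by
        ext g
        rw [lp.coeFn_add, Pi.add_apply, ten_update, ten_update, ten_update, lp.coeFn_add,
          Pi.add_apply, add_mul]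
      map_smul' := fun c η => by
        ext g
        rw [RingHom.id_apply, lp.coeFn_smul, Pi.smul_apply, ten_update, ten_update, lp.coeFn_smul,
          Pi.smul_apply, smul_eq_mul, smul_eq_mul, mul_assoc] }
    (∏ l ∈ Finset.univ.erase j, ‖ξ l‖) (by
      intro η
      refine (sq_le_sq₀ (norm_nonneg _)
        (mul_nonneg (Finset.prod_nonneg fun _ _ => norm_nonneg _) (norm_nonneg _))).1 ?_
      refine (ten_norm _).trans (le_of_eq ?_)
      rw [← Finset.mul_prod_erase Finset.univ _ (Finset.mem_univ j), Function.update_self,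
        mul_pow, mul_comm, ← Finset.prod_pow]
      congr 1
      refine Finset.prod_congr rfl fun l hl => ?_
      rw [Function.update_of_ne (Finset.ne_of_mem_erase hl)])

theorem tenL_apply (ξ : ∀ j, L2 (L j)) (j : Fin n) (η : L2 (L j)) :
    tenL ξ j η = ten (Function.update ξ j η) := rfl

theorem tenL_lm (ξ : ∀ j, L2 (L j)) (j : Fin n) (x : L j) (η : L2 (L j)) :
    tenL ξ j (lm x η) = lm (Pi.mulSingle j x) (tenL ξ j η) := by
  ext g
  rw [lm_apply, tenL_apply, tenL_apply, ten_update, ten_update, lm_apply]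
  congr 1
  · simp
  · refine Finset.prod_congr rfl fun l hl => ?_
    have : ((Pi.mulSingle j x : ∀ j, L j)⁻¹ * g) l = g l := by
      rw [Pi.mul_apply, Pi.inv_apply, Pi.mulSingle_eq_of_ne (Finset.ne_of_mem_erase hl), inv_one,
        one_mul]
    rw [this]

theorem inner_lm {G : Type} [Group G] (g : G) (ξ η : L2 G) :
    inner ℝ (lm g ξ) η = inner ℝ ξ (lm g⁻¹ η) := by
  have h : η = lm g (lm g⁻¹ η) := by rw [← lm_mul, mul_inv_cancel, lm_one]
  conv_lhs => rw [h]
  exact inner_tr _ _ _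

theorem tens : TensStatement := by
  intro n L _
  refine ⟨ten, ten_apply, ?_⟩
  intro j r x η hη ξ b
  set A := tenL ξ j with hA
  set z := ContinuousLinearMap.adjoint A b with hz
  have h1 : ∀ i, ContinuousLinearMap.adjoint A (lm (Pi.mulSingle j (x i)) b) = lm (x i) z := by
    intro i
    refine ext_inner_left ℝ fun ζ => ?_
    rw [ContinuousLinearMap.adjoint_inner_right]
    have e1 : inner ℝ (A ζ) (lm (Pi.mulSingle j (x i)) b) =
        inner ℝ (lm (Pi.mulSingle j (x i))⁻¹ (A ζ)) b := by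
      rw [inner_lm, inv_inv]
    have e2 : inner ℝ ζ (lm (x i) z) = inner ℝ (lm (x i)⁻¹ ζ) z := by
      rw [inner_lm, inv_inv]
    rw [e1, e2, hz, ContinuousLinearMap.adjoint_inner_right, hA, tenL_lm, Pi.mulSingle_inv]
  have h2 : ∀ i, inner ℝ (ten (Function.update ξ j (η i))) (lm (Pi.mulSingle j (x i)) b - b) =
      inner ℝ (η i) (lm (x i) z - z) := by
    intro i
    rw [← tenL_apply, ← hA, ← ContinuousLinearMap.adjoint_inner_right, map_sub, h1]
  rw [Finset.sum_congr rfl fun i _ => h2 i]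
  exact hη z

end

end Pool.Agent.Lib.MP_b1a3a4_al.MVS.LG.H15
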